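import Pool.Agent.N868.ZL.Kos2

/-!
# Project ZL, subtask F5: the Koszul identity for the numbers
-/

open Module Matrix

set_option linter.unusedSectionVars false

namespace Pool.Agent.N868.ZL

open Pool.Agent.N180.Zl Pool.Agent.N180.Zl.TFam Pool.Agent.N9.ZL

open Equiv

variable {K : Type*} [Field K] {ι : Type*} [Fintype ι] [DecidableEq ι]

/-- The bijection of the slots. -/
def eS {k i : ℕ} (p : ℕ) (h : i ≤ k) :
    (Fin i × Fin p) ⊕ (Fin (k - i) × Fin p) ≃ Fin k × Fin p :=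
  (Equiv.sumProdDistrib _ _ _).symm.trans (Equiv.prodCongr (e0 h) (Equiv.refl _))

/-- Renaming. -/
def rn {S S' : Type} (e : S ≃ S') (M : Matrix (S → ι) (S → ι) K) :
    Matrix (S' → ι) (S' → ι) K := Matrix.of fun J I => M (J ∘ e) (I ∘ e)

/-- The matrix of a permutation of the blocks. -/
abbrev pm (K : Type*) [Field K] (ι : Type*) [Fintype ι] [DecidableEq ι] {k : ℕ} (p : ℕ)
    (σ : Perm (Fin k)) : Matrix (Fin k × Fin p → ι) (Fin k × Fin p → ι) K :=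
  bm (Pool.Agent.N348.ZL.permM K (Fin p → ι) σ)

lemma pm_apply {k p : ℕ} (σ : Perm (Fin k)) (J I : Fin k × Fin p → ι) :
    pm K ι p σ J I = if ∀ a b, J (σ a, b) = I (a, b) then 1 else 0 := by
  change (if (fun a b => J (a, b)) ∘ σ = (fun a b => I (a, b)) then (1 : K) else 0) = _
  by_cases h : ∀ a b, J (σ a, b) = I (a, b)
  · have h1 : (fun a b => J (a, b)) ∘ σ = (fun a b => I (a, b)) :=
      funext fun a => funext fun b => h a b
    rw [if_pos h, if_pos h1]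
  · rw [if_neg h, if_neg]
    intro h1
    exact h fun a b => congrFun (congrFun h1 a) b

lemma pm_mul {k p : ℕ} (σ τ : Perm (Fin k)) : pm K ι p σ * pm K ι p τ = pm K ι p (σ * τ) := by
  rw [pm, pm, pm, bm_mul]
  congr 1
  ext J I
  rw [Matrix.mul_apply, Finset.sum_eq_single (J ∘ σ)]
  · simp only [Pool.Agent.N348.ZL.permM]
    rw [if_pos trivial, one_mul]
    rfl
  · intro L _ hL
    simp only [Pool.Agent.N348.ZL.permM]
    rw [if_neg (Ne.symm hL), zero_mul]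
  · intro h
    exact absurd (Finset.mem_univ _) h

lemma pm_one {k p : ℕ} : pm K ι p (1 : Perm (Fin k)) = 1 := by
  ext J I
  rw [pm_apply, Matrix.one_apply]
  by_cases h : J = I
  · subst h
    rw [if_pos rfl]
    exact if_pos (fun a b => rfl)
  · rw [if_neg h, if_neg]
    intro h1
    exact h (funext fun s => h1 s.1 s.2)

lemma rn_pm {k i p : ℕ} (h : i ≤ k) (σ : Perm (Fin i)) (τ : Perm (Fin (k - i)))
    (J I : Fin k × Fin p → ι) :
    pm K ι p σ ((J ∘ eS p h) ∘ Sum.inl) ((I ∘ eS p h) ∘ Sum.inl) *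
      pm K ι p τ ((J ∘ eS p h) ∘ Sum.inr) ((I ∘ eS p h) ∘ Sum.inr) =
      pm K ι p (emb h σ τ) J I := by
  rw [pm_apply, pm_apply, pm_apply]
  have h1 : (∀ a b, J (emb h σ τ a, b) = I (a, b)) ↔
      (∀ a b, ((J ∘ eS p h) ∘ Sum.inl) (σ a, b) = ((I ∘ eS p h) ∘ Sum.inl) (a, b)) ∧
      (∀ a b, ((J ∘ eS p h) ∘ Sum.inr) (τ a, b) = ((I ∘ eS p h) ∘ Sum.inr) (a, b)) := by
    constructor
    · intro h1
      constructor
      · intro a b
        have h2 := h1 (e0 h (Sum.inl a)) b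
        rw [emb_apply] at h2
        exact h2
      · intro a b
        have h2 := h1 (e0 h (Sum.inr a)) b
        rw [emb_apply] at h2
        exact h2
    · rintro ⟨h1, h2⟩ a b
      obtain ⟨a, rfl⟩ := (e0 h).surjective a
      rw [emb_apply]
      rcases a with a | a
      · exact h1 a b
      · exact h2 a b
  by_cases h2 : ∀ a b, ((J ∘ eS p h) ∘ Sum.inl) (σ a, b) = ((I ∘ eS p h) ∘ Sum.inl) (a, b)
  · by_cases h3 : ∀ a b, ((J ∘ eS p h) ∘ Sum.inr) (τ a, b) = ((I ∘ eS p h) ∘ Sum.inr) (a, b)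
    · rw [if_pos h2, if_pos h3, if_pos (h1.2 ⟨h2, h3⟩), one_mul]
    · rw [if_neg h3, if_neg (fun h4 => h3 (h1.1 h4).2), mul_zero]
  · rw [if_neg h2, if_neg (fun h4 => h2 (h1.1 h4).1), zero_mul]

/-- The idempotent. -/
noncomputable def zq (K : Type*) [Field K] (ι : Type*) [Fintype ι] [DecidableEq ι]
    (p k i : ℕ) (h : i ≤ k) : Matrix (Fin k × Fin p → ι) (Fin k × Fin p → ι) K :=
  rn (eS p h) (kr (bm (N943.ZL.altM K (Fin p → ι) i))
    (bm (Pool.Agent.N348.ZL.symM K (Fin p → ι) (k - i))))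

lemma zq_eq (p k i : ℕ) (h : i ≤ k) : zq K ι p k i h =
    ((Nat.factorial i : ℕ) : K)⁻¹ • ((Nat.factorial (k - i) : ℕ) : K)⁻¹ •
    ∑ σ : Perm (Fin i), ∑ τ : Perm (Fin (k - i)), ((Perm.sign σ : ℤ) : K) •
      pm K ι p (emb h σ τ) := by
  ext J I
  have h1 : zq K ι p k i h J I =
      (((Nat.factorial i : ℕ) : K)⁻¹ • ∑ σ : Perm (Fin i), ((Perm.sign σ : ℤ) : K) •
        pm K ι p σ) ((J ∘ eS p h) ∘ Sum.inl) ((I ∘ eS p h) ∘ Sum.inl) *
      (((Nat.factorial (k - i) : ℕ) : K)⁻¹ • ∑ τ : Perm (Fin (k - i)), (1 : K) • pm K ι p τ)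
        ((J ∘ eS p h) ∘ Sum.inr) ((I ∘ eS p h) ∘ Sum.inr) := by
    rw [← bm_smul_sum, ← bm_smul_sum]
    simp only [one_smul]
    rfl
  rw [h1]
  simp only [Matrix.smul_apply, Matrix.sum_apply, smul_eq_mul, one_mul]
  simp only [← rn_pm]
  rw [mul_mul_mul_comm, Finset.sum_mul_sum, mul_assoc]
  congr 2
  refine Finset.sum_congr rfl fun σ _ => Finset.sum_congr rfl fun τ _ => ?_
  rw [mul_assoc]

/-- The matrix of a permutation, with `n` more slots. -/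
abbrev pk (K : Type*) [Field K] (ι : Type*) [Fintype ι] [DecidableEq ι] {k : ℕ} (p n : ℕ)
    (σ : Perm (Fin k)) :
    Matrix ((Fin k × Fin p) ⊕ Fin n → ι) ((Fin k × Fin p) ⊕ Fin n → ι) K :=
  kr (pm K ι p σ) (1 : Matrix (Fin n → ι) (Fin n → ι) K)

lemma pk_mul {k p n : ℕ} (σ τ : Perm (Fin k)) :
    pk K ι p n σ * pk K ι p n τ = pk K ι p n (σ * τ) := by
  rw [pk, pk, pk, kr_mul, pm_mul, one_mul]

lemma pk_one {k p n : ℕ} : pk K ι p n (1 : Perm (Fin k)) = 1 := by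
  rw [pk, pm_one, kr_one_one]

/-- The idempotent with `n` more slots. -/
noncomputable def zs (K : Type*) [Field K] (ι : Type*) [Fintype ι] [DecidableEq ι]
    (p k i n : ℕ) (h : i ≤ k) :
    Matrix ((Fin k × Fin p) ⊕ Fin n → ι) ((Fin k × Fin p) ⊕ Fin n → ι) K :=
  kr (zq K ι p k i h) (1 : Matrix (Fin n → ι) (Fin n → ι) K)

lemma zs_eq (p k i n : ℕ) (h : i ≤ k) : zs K ι p k i n h =
    ((Nat.factorial i : ℕ) : K)⁻¹ • ((Nat.factorial (k - i) : ℕ) : K)⁻¹ •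
    ∑ σ : Perm (Fin i), ∑ τ : Perm (Fin (k - i)), ((Perm.sign σ : ℤ) : K) •
      pk K ι p n (emb h σ τ) := by
  ext J I
  rw [zs, kr_apply, zq_eq]
  simp only [Matrix.smul_apply, Matrix.sum_apply, smul_eq_mul, pk, kr_apply, Finset.mul_sum,
    Finset.sum_mul]
  refine Finset.sum_congr rfl fun σ _ => Finset.sum_congr rfl fun τ _ => ?_
  ring

/-- The action. -/
def Tr (K : Type*) [Field K] (ι : Type*) [Fintype ι] [DecidableEq ι] (k p n : ℕ) (m : Type*) :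
    Perm (Fin k) →* Module.End K (Matrix m ((Fin k × Fin p) ⊕ Fin n → ι) K) where
  toFun σ :=
    { toFun := fun M => M * pk K ι p n σ⁻¹
      map_add' := fun M N => Matrix.add_mul _ _ _
      map_smul' := fun c M => Matrix.smul_mul _ _ _ }
  map_one' := by
    apply LinearMap.ext
    intro M
    change M * pk K ι p n (1 : Perm (Fin k))⁻¹ = M
    rw [inv_one, pk_one, Matrix.mul_one]
  map_mul' := by
    intro σ τ
    apply LinearMap.ext
    intro M
    change M * pk K ι p n (σ * τ)⁻¹ = M * pk K ι p n τ⁻¹ * pk K ι p n σ⁻¹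
    rw [Matrix.mul_assoc, pk_mul, _root_.mul_inv_rev]

lemma Tr_apply {k p n : ℕ} {m : Type*} (σ : Perm (Fin k))
    (M : Matrix m ((Fin k × Fin p) ⊕ Fin n → ι) K) :
    Tr K ι k p n m σ M = M * pk K ι p n σ⁻¹ := rfl

/-- Vectors of the given type. -/
lemma zs_iff [CharZero K] {m : Type*} (p k i n : ℕ) (h : i ≤ k)
    (M : Matrix m ((Fin k × Fin p) ⊕ Fin n → ι) K) :
    M * zs K ι p k i n h = M ↔
      ∀ σ τ, Tr K ι k p n m (emb h σ τ) M = ((Perm.sign σ : ℤ) : K) • M := by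
  constructor
  · intro h3 σ τ
    have h4 : zs K ι p k i n h * pk K ι p n (emb h σ τ)⁻¹ =
        ((Perm.sign σ : ℤ) : K) • zs K ι p k i n h := by
      rw [zs_eq, Matrix.smul_mul, Matrix.smul_mul,
        smul_comm ((Perm.sign σ : ℤ) : K) ((Nat.factorial i : ℕ) : K)⁻¹,
        smul_comm ((Perm.sign σ : ℤ) : K) ((Nat.factorial (k - i) : ℕ) : K)⁻¹]
      congr 2
      rw [Matrix.sum_mul, Finset.smul_sum]
      rw [← Equiv.sum_comp (Equiv.mulRight σ) (fun σ' => (∑ τ' : Perm (Fin (k - i)),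
        ((Perm.sign σ' : ℤ) : K) • pk K ι p n (emb h σ' τ')) * pk K ι p n (emb h σ τ)⁻¹)]
      refine Finset.sum_congr rfl fun σ' _ => ?_
      rw [Matrix.sum_mul, Finset.smul_sum, ← Equiv.sum_comp (Equiv.mulRight τ) (fun τ' =>
        (((Perm.sign ((Equiv.mulRight σ) σ') : ℤ) : K) •
          pk K ι p n (emb h ((Equiv.mulRight σ) σ') τ')) * pk K ι p n (emb h σ τ)⁻¹)]
      refine Finset.sum_congr rfl fun τ' _ => ?_
      rw [Matrix.smul_mul, pk_mul, Equiv.coe_mulRight, Equiv.coe_mulRight, ← emb_mul,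
        mul_inv_cancel_right, smul_smul, Perm.sign_mul]
      congr 1
      push_cast
      ring
    rw [Tr_apply]
    conv_lhs => rw [← h3]
    rw [Matrix.mul_assoc, h4, Matrix.mul_smul, h3]
  · intro h4
    have h5 : ∀ σ τ, M * pk K ι p n (emb h σ τ) = ((Perm.sign σ : ℤ) : K) • M := by
      intro σ τ
      have h6 := h4 σ⁻¹ τ⁻¹
      rw [Tr_apply, emb_inv, inv_inv, inv_inv, Perm.sign_inv] at h6
      exact h6
    rw [zs_eq]
    rw [Matrix.mul_smul, Matrix.mul_smul, Matrix.mul_sum]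
    have h7 : ∀ σ : Perm (Fin i), M * ∑ τ : Perm (Fin (k - i)),
        ((Perm.sign σ : ℤ) : K) • pk K ι p n (emb h σ τ) =
        ((Nat.factorial (k - i) : ℕ) : K) • M := by
      intro σ
      rw [Matrix.mul_sum]
      have h8 : ∀ τ : Perm (Fin (k - i)), M * (((Perm.sign σ : ℤ) : K) •
          pk K ι p n (emb h σ τ)) = M := by
        intro τ
        rw [Matrix.mul_smul, h5, smul_smul, sgn_sq, one_smul]
      rw [Finset.sum_congr rfl fun τ _ => h8 τ, Finset.sum_const, Finset.card_univ,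
        Fintype.card_perm, Fintype.card_fin, Nat.cast_smul_eq_nsmul]
    rw [Finset.sum_congr rfl fun σ _ => h7 σ, Finset.sum_const, Finset.card_univ,
      Fintype.card_perm, Fintype.card_fin, ← Nat.cast_smul_eq_nsmul K, smul_smul, smul_smul,
      smul_smul]
    have h4 : ((Nat.factorial i : ℕ) : K) ≠ 0 := by exact_mod_cast Nat.factorial_ne_zero i
    have h5 : ((Nat.factorial (k - i) : ℕ) : K) ≠ 0 := by
      exact_mod_cast Nat.factorial_ne_zero (k - i)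
    have h6 : ((Nat.factorial i : ℕ) : K)⁻¹ * ((Nat.factorial (k - i) : ℕ) : K)⁻¹ *
        ((Nat.factorial i : ℕ) : K) * ((Nat.factorial (k - i) : ℕ) : K) = 1 := by
      field_simp
    rw [h6, one_smul]

variable (𝓣 : TFam K ι)

lemma pk_mem {k p n : ℕ} (σ : Perm (Fin k)) : pk K ι p n σ ∈
    𝓣.Hm (Sum.elim (εb k p) (fun _ : Fin n => true)) (Sum.elim (εb k p) (fun _ : Fin n => true)) :=
  𝓣.kr_mem (perm_mem 𝓣 σ) (𝓣.Hm_one _)

/-- The homomorphisms between full objects. -/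
abbrev XX (n k p : ℕ) : Submodule K (Matrix (Empty ⊕ Fin n → ι)
    ((Fin k × Fin p) ⊕ Fin n → ι) K) :=
  𝓣.Hm (Sum.elim (fun s : Empty => s.elim) (fun _ : Fin n => true))
    (Sum.elim (εb k p) (fun _ : Fin n => true))

/-- The homomorphisms between full objects. -/
abbrev YY (n k p : ℕ) : Submodule K (Matrix
    ((Fin k × Fin p) ⊕ Fin n → ι) (Empty ⊕ Fin n → ι) K) :=
  𝓣.Hm (Sum.elim (εb k p) (fun _ : Fin n => true))
    (Sum.elim (fun s : Empty => s.elim) (fun _ : Fin n => true))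

variable [CharZero K]

/-- The renamed object. -/
noncomputable def zob (p k i : ℕ) (h : i ≤ k) : Ob 𝓣 where
  S := Fin k × Fin p
  ε := εb k p
  q := zq K ι p k i h
  mem := 𝓣.Hm_reindex (eS p h) (eS p h) (by rintro (s | s) <;> rfl) (by rintro (s | s) <;> rfl)
    (Ob.tens (altOb 𝓣 p i) (symOb 𝓣 p (k - i))).mem
  idem := by
    have h1 : kr (bm (N943.ZL.altM K (Fin p → ι) i))
          (bm (Pool.Agent.N348.ZL.symM K (Fin p → ι) (k - i))) *
        kr (bm (N943.ZL.altM K (Fin p → ι) i))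
          (bm (Pool.Agent.N348.ZL.symM K (Fin p → ι) (k - i))) =
        kr (bm (N943.ZL.altM K (Fin p → ι) i))
          (bm (Pool.Agent.N348.ZL.symM K (Fin p → ι) (k - i))) :=
      (Ob.tens (altOb 𝓣 p i) (symOb 𝓣 p (k - i))).idem
    conv_rhs => rw [zq, ← h1]
    exact Matrix.submatrix_mul_equiv _ _ (fun J => J ∘ eS p h)
      (Equiv.arrowCongr (eS p h).symm (Equiv.refl ι)) (fun J => J ∘ eS p h)

include 𝓣 in
lemma zs_idem (p k i n : ℕ) (h : i ≤ k) :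
    zs K ι p k i n h * zs K ι p k i n h = zs K ι p k i n h := (zob 𝓣 p k i h).sq_idem n

lemma zs_mem (p k i n : ℕ) (h : i ≤ k) : zs K ι p k i n h ∈
    𝓣.Hm (Sum.elim (εb k p) (fun _ : Fin n => true)) (Sum.elim (εb k p) (fun _ : Fin n => true)) :=
  (zob 𝓣 p k i h).sq_mem n

/-- The homomorphisms to the renamed object. -/
noncomputable def X1 (n p k i : ℕ) (h : i ≤ k) : Submodule K (Matrix (Empty ⊕ Fin n → ι)
    ((Fin k × Fin p) ⊕ Fin n → ι) K) :=
  Ob.HS n (Ob.one 𝓣) (zob 𝓣 p k i h)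

/-- The homomorphisms from the renamed object. -/
noncomputable def Y1 (n p k i : ℕ) (h : i ≤ k) : Submodule K (Matrix
    ((Fin k × Fin p) ⊕ Fin n → ι) (Empty ⊕ Fin n → ι) K) :=
  Ob.HS n (zob 𝓣 p k i h) (Ob.one 𝓣)

lemma mem_X1 (n p k i : ℕ) (h : i ≤ k) (M : Matrix (Empty ⊕ Fin n → ι)
    ((Fin k × Fin p) ⊕ Fin n → ι) K) : M ∈ X1 𝓣 n p k i h ↔
      M ∈ XX 𝓣 n k p ∧ M * zs K ι p k i n h = M := by
  constructor
  · rintro ⟨h1, _, h3⟩
    exact ⟨h1, h3⟩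
  · rintro ⟨h1, h3⟩
    refine ⟨h1, ?_, h3⟩
    have h4 : (kr (1 : Matrix (Empty → ι) (Empty → ι) K) (1 : Matrix (Fin n → ι) (Fin n → ι) K)) *
      M = M := by rw [kr_one_one, Matrix.one_mul]
    exact h4

lemma mem_Y1 (n p k i : ℕ) (h : i ≤ k) (M : Matrix
    ((Fin k × Fin p) ⊕ Fin n → ι) (Empty ⊕ Fin n → ι) K) : M ∈ Y1 𝓣 n p k i h ↔
      M ∈ YY 𝓣 n k p ∧ zs K ι p k i n h * M = M := by
  constructor
  · rintro ⟨h1, h2, _⟩
    exact ⟨h1, h2⟩
  · rintro ⟨h1, h3⟩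
    refine ⟨h1, h3, ?_⟩
    have h4 : M * (kr (1 : Matrix (Empty → ι) (Empty → ι) K)
      (1 : Matrix (Fin n → ι) (Fin n → ι) K)) = M := by rw [kr_one_one, Matrix.mul_one]
    exact h4

lemma X1_eq (n p k i : ℕ) (h : i ≤ k) :
    X1 𝓣 n p k i h = Xi (Tr K ι k p n (Empty ⊕ Fin n → ι)) (XX 𝓣 n k p) i h := by
  ext M
  rw [mem_X1, zs_iff]
  rfl

lemma hs_zob (n p k i : ℕ) (h : i ≤ k) :
    Ob.hs n (Ob.one 𝓣) (zob 𝓣 p k i h) =
      nr (Xi (Tr K ι k p n (Empty ⊕ Fin n → ι)) (XX 𝓣 n k p) i h) (orth (YY 𝓣 n k p)) := by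
  have h0 : Ob.hs n (Ob.one 𝓣) (zob 𝓣 p k i h) = nr (X1 𝓣 n p k i h) (orth (Y1 𝓣 n p k i h)) := rfl
  rw [h0, ← X1_eq, nr_eq (orth (YY 𝓣 n k p)).mkQ]
  · rfl
  · intro M hM
    rw [mem_X1] at hM
    rw [Submodule.mkQ_apply, Submodule.Quotient.mk_eq_zero]
    constructor
    · intro h4 y hy
      rw [mem_Y1] at hy
      exact h4 y hy.1
    · intro h4 y hy
      have h5 := h4 (zs K ι p k i n h * y) ((mem_Y1 𝓣 n p k i h _).2
        ⟨𝓣.Hm_mul (zs_mem 𝓣 p k i n h) hy, by rw [← Matrix.mul_assoc, zs_idem 𝓣]⟩)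
      rw [← Matrix.mul_assoc, hM.2] at h5
      exact h5

/-- **The Koszul identity.** -/
theorem kos (hr : S_rename 𝓣) : S_kos 𝓣 := by
  intro n p k hk
  refine koszul_nr (Tr K ι k p n (Empty ⊕ Fin n → ι)) (XX 𝓣 n k p) (orth (YY 𝓣 n k p)) ?_ ?_ hk
    (fun i => Ob.hs n (Ob.one 𝓣) (Ob.tens (altOb 𝓣 p i) (symOb 𝓣 p (k - i)))) ?_
  · intro σ M hM
    exact 𝓣.Hm_mul hM (pk_mem 𝓣 _)
  · intro σ M hM y hy
    rw [Tr_apply, Matrix.mul_assoc]
    exact hM _ (𝓣.Hm_mul (pk_mem 𝓣 _) hy)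
  · intro i h
    rw [← hs_zob]
    refine hr n _ _ (zob 𝓣 p k i h) (eS p h) ?_ ?_
    · rintro (s | s) <;> rfl
    · intro J I
      rfl

end Pool.Agent.N868.ZL
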