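import Pool.Agent.N180.ZlF
import Pool.Agent.N9.ZLKoszul

/-!
# Project ZL, subtask F5: the Koszul identity for the numbers
-/

open Module Matrix

set_option linter.unusedSectionVars false

namespace Pool.Agent.N868.ZL

open Pool.Agent.N180.Zl Pool.Agent.N180.Zl.TFam

open Equiv

section Emb

variable {k i : ℕ}

/-- The bijection. -/
def e0 (h : i ≤ k) : Fin i ⊕ Fin (k - i) ≃ Fin k :=
  finSumFinEquiv.trans (finCongr (by omega))

lemma e0_inl (h : i ≤ k) (a : Fin i) : (e0 h (Sum.inl a)).val = a.val := by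
  simp [e0]

lemma e0_inr (h : i ≤ k) (a : Fin (k - i)) : (e0 h (Sum.inr a)).val = i + a.val := by
  simp [e0]

/-- The embedding of the product. -/
def emb (h : i ≤ k) (σ : Perm (Fin i)) (τ : Perm (Fin (k - i))) : Perm (Fin k) :=
  (e0 h).permCongr (Equiv.Perm.sumCongr σ τ)

lemma emb_apply (h : i ≤ k) (σ : Perm (Fin i)) (τ : Perm (Fin (k - i))) (s) :
    emb h σ τ (e0 h s) = e0 h (Equiv.Perm.sumCongr σ τ s) := by
  simp [emb, Equiv.permCongr_apply]

lemma emb_mul (h : i ≤ k) (σ σ' : Perm (Fin i)) (τ τ' : Perm (Fin (k - i))) :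
    emb h σ τ * emb h σ' τ' = emb h (σ * σ') (τ * τ') := by
  ext s
  obtain ⟨s, rfl⟩ := (e0 h).surjective s
  rw [Perm.mul_apply, emb_apply, emb_apply, emb_apply, ← Perm.sumCongr_mul, Perm.mul_apply]

lemma emb_one (h : i ≤ k) : emb h 1 1 = 1 := by
  ext s
  obtain ⟨s, rfl⟩ := (e0 h).surjective s
  rw [emb_apply, Perm.sumCongr_one]
  rfl

lemma emb_inv (h : i ≤ k) (σ : Perm (Fin i)) (τ : Perm (Fin (k - i))) :
    (emb h σ τ)⁻¹ = emb h σ⁻¹ τ⁻¹ := by
  rw [inv_eq_iff_mul_eq_one, emb_mul, mul_inv_cancel, mul_inv_cancel, emb_one]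

lemma sign_emb (h : i ≤ k) (σ : Perm (Fin i)) (τ : Perm (Fin (k - i))) :
    Perm.sign (emb h σ τ) = Perm.sign σ * Perm.sign τ := by
  rw [emb, Perm.sign_permCongr, Perm.sign_sumCongr]

lemma emb_fix_lt (h : i ≤ k) (τ : Perm (Fin (k - i))) (a : Fin k) (ha : a.val < i) :
    emb h 1 τ a = a := by
  have h1 : a = e0 h (Sum.inl ⟨a.val, ha⟩) := Fin.ext (by rw [e0_inl])
  rw [h1, emb_apply]
  rfl

lemma emb_fix_ge (h : i ≤ k) (σ : Perm (Fin i)) (a : Fin k) (ha : i ≤ a.val) :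
    emb h σ 1 a = a := by
  have h1 : a = e0 h (Sum.inr ⟨a.val - i, by omega⟩) := Fin.ext (by rw [e0_inr]; simp; omega)
  rw [h1, emb_apply]
  rfl

lemma exists_emb_lt (h : i ≤ k) (σ : Perm (Fin k)) (hσ : ∀ a : Fin k, a.val < i → σ a = a) :
    ∃ τ, σ = emb h 1 τ := by
  set ρ := (e0 h).symm.permCongr σ with hρ
  have h1 : ∀ a, ρ (Sum.inl a) = Sum.inl a := by
    intro a
    rw [hρ, Equiv.permCongr_apply, Equiv.symm_symm, hσ _ (by rw [e0_inl]; exact a.2),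
      Equiv.symm_apply_apply]
  obtain ⟨⟨σ', τ⟩, h2⟩ := Perm.mem_sumCongrHom_range_of_perm_mapsTo_inl (σ := ρ) (by
    rintro _ ⟨a, rfl⟩
    exact ⟨a, (h1 a).symm⟩)
  have h3 : σ' = 1 := by
    ext a
    have h4 := h1 a
    rw [← h2] at h4
    change Sum.inl (σ' a) = Sum.inl a at h4
    rw [Sum.inl_injective h4]
    rfl
  refine ⟨τ, ?_⟩
  rw [← h3, emb]
  change σ = (e0 h).permCongr (Perm.sumCongrHom _ _ (σ', τ))
  rw [h2, hρ]
  ext s
  simp [Equiv.permCongr_apply]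

lemma exists_emb_ge (h : i ≤ k) (σ : Perm (Fin k)) (hσ : ∀ a : Fin k, i ≤ a.val → σ a = a) :
    ∃ τ, σ = emb h τ 1 := by
  set ρ := (e0 h).symm.permCongr σ with hρ
  have h1 : ∀ a, ρ (Sum.inr a) = Sum.inr a := by
    intro a
    rw [hρ, Equiv.permCongr_apply, Equiv.symm_symm, hσ _ (by rw [e0_inr]; omega),
      Equiv.symm_apply_apply]
  obtain ⟨⟨σ', τ⟩, h2⟩ := Perm.mem_sumCongrHom_range_of_perm_mapsTo_inl (σ := ρ) (by
    rintro _ ⟨a, rfl⟩
    rcases h5 : ρ (Sum.inl a) with b | b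
    · exact ⟨b, rfl⟩
    · rw [← h1 b] at h5
      exact absurd (ρ.injective h5) (by simp))
  have h3 : τ = 1 := by
    ext a
    have h4 := h1 a
    rw [← h2] at h4
    change Sum.inr (τ a) = Sum.inr a at h4
    rw [Sum.inr_injective h4]
    rfl
  refine ⟨σ', ?_⟩
  rw [← h3, emb]
  change σ = (e0 h).permCongr (Perm.sumCongrHom _ _ (σ', τ))
  rw [h2, hρ]
  ext s
  simp [Equiv.permCongr_apply]

open Pool.Agent.N9.ZL in
lemma mem_SkInv_emb {K Q : Type*} [Field K] [AddCommGroup Q] [Module K Q] (h : i ≤ k)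
    (ρ : Perm (Fin k) →* Module.End K Q) (x : Q) :
    x ∈ SkInv ρ (Finset.univ.filter fun j : Fin k => j.val < i) ↔
      ∀ σ τ, ρ (emb h σ τ) x = ((Perm.sign σ : ℤ) : K) • x := by
  rw [mem_V]
  constructor
  · rintro ⟨h1, h2⟩ σ τ
    have e1 : emb h σ τ = emb h σ 1 * emb h 1 τ := by rw [emb_mul, mul_one, one_mul]
    rw [e1, map_mul]
    change ρ (emb h σ 1) (ρ (emb h 1 τ) x) = _
    rw [h1 _ (emb_fix_lt h τ), h2 _ (emb_fix_ge h σ), sign_emb, map_one, mul_one]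
  · intro h1
    constructor
    · intro σ hσ
      obtain ⟨τ, rfl⟩ := exists_emb_lt h σ hσ
      rw [h1, map_one]
      simp
    · intro σ hσ
      obtain ⟨τ, rfl⟩ := exists_emb_ge h σ hσ
      rw [h1, sign_emb, map_one, mul_one]

end Emb

end Pool.Agent.N868.ZL
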