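import Pool.Agent.N868.ZL.Kos

/-!
# Project ZL, subtask F5: the Koszul identity for the numbers, linear algebra
-/

open Module Matrix

set_option linter.unusedSectionVars false

namespace Pool.Agent.N868.ZL

open Pool.Agent.N180.Zl Pool.Agent.N180.Zl.TFam Pool.Agent.N9.ZL

open Equiv

section Abs

variable {K E : Type*} [Field K] [AddCommGroup E] [Module K E] {k : ℕ}
  (T : Perm (Fin k) →* Module.End K E) (X N : Submodule K E)
  (hX : ∀ σ, ∀ x ∈ X, T σ x ∈ X) (hN : ∀ σ, ∀ x ∈ N, T σ x ∈ N)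

/-- The action on the image of `X` modulo `N`. -/
def TQ : Perm (Fin k) →* Module.End K (X.map N.mkQ) where
  toFun σ := (N.mapQ N (T σ) (fun x hx => hN σ x hx)).restrict (p := X.map N.mkQ)
    (q := X.map N.mkQ) (by
      rintro _ ⟨x, hx, rfl⟩
      exact ⟨T σ x, hX σ x hx, rfl⟩)
  map_one' := by
    apply LinearMap.ext
    rintro ⟨_, x, hx, rfl⟩
    apply Subtype.ext
    change N.mkQ (T 1 x) = N.mkQ x
    rw [map_one]
    rfl
  map_mul' := by
    intro σ τ
    apply LinearMap.ext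
    rintro ⟨_, x, hx, rfl⟩
    apply Subtype.ext
    change N.mkQ (T (σ * τ) x) = N.mkQ (T σ (T τ x))
    rw [map_mul]
    rfl

lemma TQ_apply (σ : Perm (Fin k)) (x : E) (hx : x ∈ X) :
    (TQ T X N hX hN σ ⟨N.mkQ x, ⟨x, hx, rfl⟩⟩ : E ⧸ N) = N.mkQ (T σ x) := rfl

/-- The vectors of the given type. -/
def Xi (i : ℕ) (h : i ≤ k) : Submodule K E where
  carrier := {x | x ∈ X ∧ ∀ σ τ, T (emb h σ τ) x = ((Perm.sign σ : ℤ) : K) • x}
  add_mem' := by
    rintro x y ⟨h1, h2⟩ ⟨h3, h4⟩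
    exact ⟨X.add_mem h1 h3, fun σ τ => by rw [map_add, h2, h4, smul_add]⟩
  zero_mem' := ⟨X.zero_mem, fun σ τ => by rw [map_zero, smul_zero]⟩
  smul_mem' := by
    rintro c x ⟨h1, h2⟩
    exact ⟨X.smul_mem c h1, fun σ τ => by rw [map_smul, h2, smul_comm]⟩

/-- The averaging operator. -/
noncomputable def av (i : ℕ) (h : i ≤ k) : Module.End K E :=
  ((Nat.factorial i : ℕ) : K)⁻¹ • ((Nat.factorial (k - i) : ℕ) : K)⁻¹ •
    ∑ σ : Perm (Fin i), ∑ τ : Perm (Fin (k - i)), ((Perm.sign σ : ℤ) : K) • T (emb h σ τ)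

lemma av_apply (i : ℕ) (h : i ≤ k) (x : E) : av T i h x =
    ((Nat.factorial i : ℕ) : K)⁻¹ • ((Nat.factorial (k - i) : ℕ) : K)⁻¹ •
    ∑ σ : Perm (Fin i), ∑ τ : Perm (Fin (k - i)), ((Perm.sign σ : ℤ) : K) • T (emb h σ τ) x := by
  simp only [av, LinearMap.smul_apply, LinearMap.sum_apply]

include hX in
lemma av_mem (i : ℕ) (h : i ≤ k) (x : E) (hx : x ∈ X) :
    av T i h x ∈ Xi T X i h := by
  constructor
  · rw [av_apply]
    refine X.smul_mem _ (X.smul_mem _ (X.sum_mem fun σ _ => X.sum_mem fun τ _ =>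
      X.smul_mem _ (hX _ _ hx)))
  · intro σ' τ'
    rw [av_apply, map_smul, map_smul, map_sum,
      smul_comm ((Perm.sign σ' : ℤ) : K) ((Nat.factorial i : ℕ) : K)⁻¹,
      smul_comm ((Perm.sign σ' : ℤ) : K) ((Nat.factorial (k - i) : ℕ) : K)⁻¹]
    congr 2
    rw [Finset.smul_sum, ← Equiv.sum_comp (Equiv.mulLeft σ') (fun σ => ((Perm.sign σ' : ℤ) : K) •
      ∑ τ : Perm (Fin (k - i)), ((Perm.sign σ : ℤ) : K) • T (emb h σ τ) x)]
    refine Finset.sum_congr rfl fun σ _ => ?_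
    rw [map_sum, Finset.smul_sum, ← Equiv.sum_comp (Equiv.mulLeft τ') (fun τ => ((Perm.sign σ' : ℤ) : K) •
      ((Perm.sign ((Equiv.mulLeft σ') σ) : ℤ) : K) • T (emb h ((Equiv.mulLeft σ') σ) τ) x)]
    refine Finset.sum_congr rfl fun τ _ => ?_
    rw [map_smul, ← mul_app, emb_mul, Equiv.coe_mulLeft, Equiv.coe_mulLeft, smul_smul]
    congr 1
    rw [Perm.sign_mul]
    push_cast
    have := sgn_sq (K := K) σ'
    linear_combination -((Perm.sign σ : ℤ) : K) * this

lemma nr_Xi [CharZero K] [Module.Finite K E] (i : ℕ) (h : i ≤ k) :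
    nr (Xi T X i h) N = finrank K (SkInv (TQ T X N hX hN)
      (Finset.univ.filter fun j : Fin k => j.val < i)) := by
  have key : (SkInv (TQ T X N hX hN) (Finset.univ.filter fun j : Fin k => j.val < i)).map
      (X.map N.mkQ).subtype = (Xi T X i h).map N.mkQ := by
    ext y
    constructor
    · rintro ⟨⟨_, x, hx, rfl⟩, hy, rfl⟩
      rw [SetLike.mem_coe, mem_SkInv_emb h] at hy
      refine ⟨av T i h x, av_mem T X hX i h x hx, ?_⟩
      have h1 : ∀ σ τ, N.mkQ (T (emb h σ τ) x) = ((Perm.sign σ : ℤ) : K) • N.mkQ x :=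
        fun σ τ => congrArg Subtype.val (hy σ τ)
      rw [av_apply, map_smul, map_smul, map_sum]
      have h2 : ∀ σ : Perm (Fin i), N.mkQ (∑ τ : Perm (Fin (k - i)),
          ((Perm.sign σ : ℤ) : K) • T (emb h σ τ) x) =
          ((Nat.factorial (k - i) : ℕ) : K) • N.mkQ x := by
        intro σ
        rw [map_sum]
        have h3 : ∀ τ : Perm (Fin (k - i)), N.mkQ (((Perm.sign σ : ℤ) : K) • T (emb h σ τ) x) =
            N.mkQ x := by
          intro τ
          rw [map_smul, h1, smul_smul, sgn_sq, one_smul]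
        rw [Finset.sum_congr rfl fun τ _ => h3 τ, Finset.sum_const, Finset.card_univ,
          Fintype.card_perm, Fintype.card_fin, Nat.cast_smul_eq_nsmul]
      rw [Finset.sum_congr rfl fun σ _ => h2 σ, Finset.sum_const, Finset.card_univ,
        Fintype.card_perm, Fintype.card_fin, ← Nat.cast_smul_eq_nsmul K, smul_smul, smul_smul,
        smul_smul]
      have h4 : ((Nat.factorial i : ℕ) : K) ≠ 0 := by exact_mod_cast Nat.factorial_ne_zero i
      have h5 : ((Nat.factorial (k - i) : ℕ) : K) ≠ 0 := by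
        exact_mod_cast Nat.factorial_ne_zero (k - i)
      have h6 : ((Nat.factorial i : ℕ) : K)⁻¹ * ((Nat.factorial (k - i) : ℕ) : K)⁻¹ *
          ((Nat.factorial i : ℕ) : K) * ((Nat.factorial (k - i) : ℕ) : K) = 1 := by
        field_simp
      rw [h6, one_smul]
      rfl
    · rintro ⟨x, ⟨hx, hx'⟩, rfl⟩
      refine ⟨⟨N.mkQ x, ⟨x, hx, rfl⟩⟩, ?_, rfl⟩
      rw [SetLike.mem_coe, mem_SkInv_emb h]
      intro σ τ
      apply Subtype.ext
      rw [TQ_apply _ _ _ _ _ _ x hx, hx' σ τ, map_smul]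
      rfl
  rw [nr, ← key]
  exact (Submodule.equivMapOfInjective _ Subtype.val_injective _).finrank_eq.symm

/-- The Koszul identity for the numbers, in linear algebra. -/
theorem koszul_nr [CharZero K] [Module.Finite K E]
    (hX : ∀ σ, ∀ x ∈ X, T σ x ∈ X) (hN : ∀ σ, ∀ x ∈ N, T σ x ∈ N) (hk : 1 ≤ k) (g : ℕ → ℕ)
    (hg : ∀ i (h : i ≤ k), g i = nr (Xi T X i h) N) :
    ∑ i ∈ Finset.range (k + 1), (-1 : ℤ) ^ i * (g i : ℤ) = 0 := by
  rw [← koszul hk (TQ T X N hX hN)]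
  refine Finset.sum_congr rfl fun i hi => ?_
  rw [Finset.mem_range] at hi
  rw [hg i (by omega), nr_Xi T X N hX hN]

end Abs

end Pool.Agent.N868.ZL
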